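import Pool.Agent.Helper48.TF.Defs

/-!
# TF, part LEV (MP_097e5c_al): nil semiprime rings with a multilinear identity are zero
-/

set_option autoImplicit false

namespace Pool.TF48.H41

open Pool.TF48

/-- the product `x 0 * (x 1 * (⋯ * x n))` -/
def mon {R : Type} [NonUnitalRing R] : (n : ℕ) → (Fin (n + 1) → R) → R
  | 0, x => x 0
  | n + 1, x => x 0 * mon n (fun i => x i.succ)

theorem mon_zero {R : Type} [NonUnitalRing R] (x : Fin (0 + 1) → R) : mon 0 x = x 0 := rfl

theorem mon_succ {R : Type} [NonUnitalRing R] (n : ℕ) (x : Fin (n + 1 + 1) → R) :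
    mon (n + 1) x = x 0 * mon n (fun i => x i.succ) := rfl

theorem inr_zero_iff {R : Type} [NonUnitalRing R] (r : R) :
    (r : Unitization ℤ R) = 0 ↔ r = 0 :=
  ⟨fun h => Unitization.inr_injective (by rw [h, Unitization.inr_zero]),
    fun h => by rw [h, Unitization.inr_zero]⟩

theorem mon_coe {R : Type} [NonUnitalRing R] (n : ℕ) (x : Fin (n + 1) → R) :
    (List.ofFn (fun i => (x i : Unitization ℤ R))).prod = ((mon n x : R) : Unitization ℤ R) := by
  induction n with
  | zero => simp [mon]
  | succ n ih =>
    rw [List.ofFn_succ, List.prod_cons, ih, mon_succ, Unitization.inr_mul]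

theorem mon_map {R R' : Type} [NonUnitalRing R] [NonUnitalRing R'] (φ : R →ₙ+* R') (n : ℕ)
    (x : Fin (n + 1) → R) : φ (mon n x) = mon n (fun i => φ (x i)) := by
  induction n with
  | zero => rfl
  | succ n ih => rw [mon_succ, mon_succ, map_mul, ih]

theorem mon_pow {R : Type} [NonUnitalRing R] (n : ℕ) (r : R) :
    (r : Unitization ℤ R) ^ (n + 1) = ((mon n (fun _ => r) : R) : Unitization ℤ R) := by
  induction n with
  | zero => exact pow_one _
  | succ n ih => rw [pow_succ', ih, mon_succ, Unitization.inr_mul]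

/-- `MI` in terms of `mon` -/
theorem mi_iff (d : ℕ) (R : Type) [NonUnitalRing R] : MI d R ↔
    ∃ a : Equiv.Perm (Fin (d + 1)) → ℤ, a 1 = 1 ∧ ∀ x : Fin (d + 1) → R,
      ∑ σ, a σ • mon d (fun i => x (σ i)) = 0 := by
  have key : ∀ (a : Equiv.Perm (Fin (d + 1)) → ℤ) (x : Fin (d + 1) → R),
      ∑ σ, a σ • (List.ofFn (fun i => (x (σ i) : Unitization ℤ R))).prod =
        ((∑ σ, a σ • mon d (fun i => x (σ i)) : R) : Unitization ℤ R) := by
    intro a x
    have h := map_sum (Unitization.inrHom ℤ ℤ R) (fun σ : Equiv.Perm (Fin (d + 1)) =>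
      a σ • mon d (fun i => x (σ i))) Finset.univ
    simp only [map_zsmul] at h
    refine (Finset.sum_congr rfl fun σ _ => ?_).trans h.symm
    rw [mon_coe d (fun i => x (σ i))]
    rfl
  unfold MI
  refine exists_congr fun a => and_congr_right fun _ => forall_congr' fun x => ?_
  rw [key]
  exact inr_zero_iff _

/-- `R` with the multiplication `r * a * s` -/
def Tw {R : Type} [NonUnitalRing R] (_a : R) : Type := R

section

variable {R : Type} [NonUnitalRing R] (a : R)

instance : AddCommGroup (Tw a) := inferInstanceAs (AddCommGroup R)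

/-- `R → Tw a` -/
def toTw (r : R) : Tw a := r

variable {a} in
/-- `Tw a → R` -/
def ofTw (r : Tw a) : R := r

instance : NonUnitalRing (Tw a) :=
  { (inferInstanceAs (AddCommGroup R) : AddCommGroup (Tw a)) with
    mul := fun (r s : R) => (r * a * s : R)
    left_distrib := fun (r s t : R) => mul_add (r * a) s t
    right_distrib := fun (r s t : R) => by
      change (r + s) * a * t = r * a * t + s * a * t
      rw [add_mul, add_mul]
    zero_mul := fun (r : R) => by
      change (0 : R) * a * r = 0
      rw [zero_mul, zero_mul]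
    mul_zero := fun (r : R) => by
      change r * a * (0 : R) = 0
      rw [mul_zero]
    mul_assoc := fun (r s t : R) => by
      change r * a * s * a * t = r * a * (s * a * t)
      simp only [mul_assoc] }

theorem ofTw_mul (r s : Tw a) : ofTw (r * s) = ofTw r * a * ofTw s := rfl
theorem ofTw_add (r s : Tw a) : ofTw (r + s) = ofTw r + ofTw s := rfl
theorem ofTw_zero : ofTw (0 : Tw a) = 0 := rfl
theorem ofTw_toTw (r : R) : ofTw (toTw a r) = r := rfl

/-- `ofTw` is additive -/
def ofTwHom : Tw a →+ R where
  toFun := ofTw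
  map_zero' := rfl
  map_add' := fun _ _ => rfl

theorem ofTwHom_apply (r : Tw a) : ofTwHom a r = ofTw r := rfl

/-- the congruence `a r a = a s a` -/
def twCon : RingCon (Tw a) where
  r x y := a * ofTw x * a = a * ofTw y * a
  iseqv := ⟨fun _ => rfl, fun h => h.symm, fun h1 h2 => h1.trans h2⟩
  mul' := by
    intro w x y z h1 h2
    rw [ofTw_mul, ofTw_mul]
    calc a * (ofTw w * a * ofTw y) * a = a * ofTw w * (a * ofTw y * a) := by simp only [mul_assoc]
      _ = a * ofTw w * a * ofTw z * a := by rw [h2]; simp only [mul_assoc]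
      _ = a * ofTw x * a * ofTw z * a := by rw [h1]
      _ = a * (ofTw x * a * ofTw z) * a := by simp only [mul_assoc]
  add' := by
    intro w x y z h1 h2
    rw [ofTw_add, ofTw_add, mul_add, mul_add, add_mul, add_mul, h1, h2]

/-- the quotient map -/
def twMk : Tw a →ₙ+* (twCon a).Quotient where
  toFun := (↑)
  map_mul' := fun _ _ => rfl
  map_zero' := rfl
  map_add' := fun _ _ => rfl

theorem twMk_surj : Function.Surjective (twMk a) := Quotient.mk_surjective

theorem twMk_zero (r : Tw a) : twMk a r = 0 ↔ a * ofTw r * a = 0 := by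
  have h : twMk a r = 0 ↔ twCon a r 0 := (twCon a).eq
  rw [h]
  change a * ofTw r * a = a * ofTw (0 : Tw a) * a ↔ _
  rw [ofTw_zero, mul_zero, zero_mul]

theorem mon_tw (n : ℕ) (x : Fin (n + 1) → Tw a) :
    mon n (fun i => a * ofTw (x i)) = a * ofTw (mon n x) := by
  induction n with
  | zero => rfl
  | succ n ih =>
    rw [mon_succ, ih (fun i => x i.succ), mon_succ, ofTw_mul]
    simp only [mul_assoc]

end

theorem mi_step {d : ℕ} {R : Type} [NonUnitalRing R] (h : MI (d + 1) R) (hs : Semiprime R) (a : R)
    (ha : a * a = 0) : MI d (twCon a).Quotient := by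
  classical
  rw [mi_iff] at h ⊢
  obtain ⟨A, hA, hf⟩ := h
  refine ⟨fun e => A (Equiv.Perm.decomposeFin.symm (0, e)), ?_, ?_⟩
  · have : Equiv.Perm.decomposeFin.symm ((0 : Fin (d + 2)), (1 : Equiv.Perm (Fin (d + 1)))) = 1 := by
      ext i
      refine Fin.cases ?_ (fun j => ?_) i
      · simp
      · simp
    change A (Equiv.Perm.decomposeFin.symm (0, 1)) = 1
    rw [this, hA]
  · intro x'
    obtain ⟨r, hr⟩ : ∃ r : Fin (d + 1) → Tw a, ∀ i, twMk a (r i) = x' i := by
      choose r hr using fun i => twMk_surj a (x' i)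
      exact ⟨r, hr⟩
    set G : Tw a := ∑ e : Equiv.Perm (Fin (d + 1)), A (Equiv.Perm.decomposeFin.symm (0, e)) •
      mon d (fun i => r (e i)) with hG
    have hgoal : ∑ e : Equiv.Perm (Fin (d + 1)), A (Equiv.Perm.decomposeFin.symm (0, e)) •
        mon d (fun i => x' (e i)) = twMk a G := by
      rw [hG, map_sum]
      apply Finset.sum_congr rfl
      intro e _
      rw [map_zsmul, mon_map]
      simp only [hr]
    rw [hgoal]
    refine (twMk_zero a G).2 ?_
    have h3 : a * ofTw G = ∑ e : Equiv.Perm (Fin (d + 1)),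
        A (Equiv.Perm.decomposeFin.symm (0, e)) • mon d (fun i => a * ofTw (r (e i))) := by
      rw [← ofTwHom_apply, hG, map_sum, Finset.mul_sum]
      apply Finset.sum_congr rfl
      intro e _
      rw [map_zsmul, ofTwHom_apply, mul_smul_comm, mon_tw a d (fun i => r (e i))]
    have hkey : ∀ x₀ : R, a * x₀ * (a * ofTw G) = 0 := by
      intro x₀
      have h1 := congrArg (fun t => a * t) (hf (Fin.cons x₀ (fun j => a * ofTw (r j))))
      simp only [mul_zero, Finset.mul_sum] at h1
      rw [← (Equiv.Perm.decomposeFin (n := d + 1)).symm.sum_comp, Fintype.sum_prod_type,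
        Fin.sum_univ_succ] at h1
      have h2 : ∀ (j : Fin (d + 1)) (e : Equiv.Perm (Fin (d + 1))),
          a * A (Equiv.Perm.decomposeFin.symm (j.succ, e)) • mon (d + 1) (fun i =>
            (Fin.cons x₀ (fun j => a * ofTw (r j)) : Fin (d + 2) → R)
              (Equiv.Perm.decomposeFin.symm (j.succ, e) i)) = 0 := by
        intro j e
        rw [mul_smul_comm, mon_succ, Equiv.Perm.decomposeFin_symm_apply_zero, Fin.cons_succ,
          ← mul_assoc, ← mul_assoc, ha, zero_mul, zero_mul, smul_zero]
      simp only [h2, Finset.sum_const_zero, add_zero] at h1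
      rw [← h1, h3, Finset.mul_sum]
      apply Finset.sum_congr rfl
      intro e _
      rw [mul_smul_comm, mul_smul_comm]
      congr 1
      rw [mon_succ, Equiv.Perm.decomposeFin_symm_apply_zero, Fin.cons_zero, mul_assoc]
      congr 3
    apply hs
    intro y
    have h5 := hkey y
    calc a * ofTw G * a * y * (a * ofTw G * a) =
        a * ofTw G * (a * y * (a * ofTw G)) * a := by simp only [mul_assoc]
      _ = 0 := by rw [h5, mul_zero, zero_mul]

theorem lev : S_LEV := by
  intro d
  induction d with
  | zero =>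
    intro R _ h _ _ a
    rw [mi_iff] at h
    obtain ⟨A, hA, hf⟩ := h
    have h1 := hf (fun _ => a)
    have hsub : ∀ σ : Equiv.Perm (Fin (0 + 1)), σ = 1 := by
      intro σ
      ext i
      have := (σ i).2
      have := i.2
      change (σ i : ℕ) = (i : ℕ)
      omega
    rw [Fintype.sum_eq_single (1 : Equiv.Perm (Fin (0 + 1)))
      (fun σ hσ => absurd (hsub σ) hσ), hA, one_smul] at h1
    exact h1
  | succ d ih =>
    intro R _ h hnil hs a₀
    -- no elements of square zero
    have hsq : ∀ a : R, a * a = 0 → a = 0 := by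
      intro a ha
      have h1 := mi_step h hs a ha
      have h2 := ih (twCon a).Quotient h1 ?_ ?_
      · apply hs
        intro b
        exact (twMk_zero a (toTw a b)).1 (h2 _)
      · intro r'
        obtain ⟨r, rfl⟩ := twMk_surj a r'
        obtain ⟨n, hn⟩ := hnil (a * ofTw r)
        refine ⟨n, ?_⟩
        rw [mon_pow] at hn ⊢
        rw [inr_zero_iff] at hn ⊢
        rw [← mon_map (twMk a) n (fun _ => r)]
        refine (twMk_zero a _).2 ?_
        rw [← mon_tw a n (fun _ => r), hn, zero_mul]
      · intro r' hr'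
        obtain ⟨r, rfl⟩ := twMk_surj a r'
        refine (twMk_zero a r).2 ?_
        apply hs
        intro b
        have h3 := hr' (twMk a (toTw a b))
        rw [← map_mul, ← map_mul] at h3
        have h4 := (twMk_zero a _).1 h3
        rw [ofTw_mul, ofTw_mul, ofTw_toTw] at h4
        rw [← h4]
        simp only [mul_assoc]
    -- nilpotent elements vanish
    have hpow : ∀ (n : ℕ) (r : R), (r : Unitization ℤ R) ^ (n + 1) = 0 → r = 0 := by
      intro n
      induction n using Nat.strong_induction_on with
      | _ n ihn =>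
        intro r hr
        rcases Nat.eq_zero_or_pos n with rfl | hn
        · rw [zero_add, pow_one, inr_zero_iff] at hr
          exact hr
        · -- r ^ n has square zero
          obtain ⟨m, rfl⟩ : ∃ m, n = m + 1 := ⟨n - 1, by omega⟩
          apply ihn m (by omega)
          rw [mon_pow, inr_zero_iff]
          apply hsq
          rw [← inr_zero_iff, Unitization.inr_mul, ← mon_pow, ← pow_add,
            show m + 1 + (m + 1) = (m + 1 + 1) + m by omega, pow_add, hr, zero_mul]
    obtain ⟨n, hn⟩ := hnil a₀
    exact hpow n a₀ hn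

end Pool.TF48.H41
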