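import Pool.Agent.Helper41.TF.LEV

/-!
# TF, part JEN (MP_097e5c_al): Jennings' theorem
-/

set_option autoImplicit false

namespace Pool.TF48.H41

open Pool.TF48

/-- membership in the ideal generated by the commutators of length `n + 1` -/
inductive InT {R : Type} [NonUnitalRing R] (n : ℕ) : R → Prop
  | base (r : ℕ → R) : InT n (lnc r n)
  | zero : InT n 0
  | add {x y : R} : InT n x → InT n y → InT n (x + y)
  | neg {x : R} : InT n x → InT n (-x)
  | left {x : R} (b : R) : InT n x → InT n (b * x)
  | right {x : R} (b : R) : InT n x → InT n (x * b)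

theorem InT.sub {R : Type} [NonUnitalRing R] {n : ℕ} {x y : R} (hx : InT n x) (hy : InT n y) :
    InT n (x - y) := by
  rw [sub_eq_add_neg]
  exact hx.add hy.neg

theorem lnc_congr {R : Type} [NonUnitalRing R] (r r' : ℕ → R) (n : ℕ) (h : ∀ i ≤ n, r i = r' i) :
    lnc r n = lnc r' n := by
  induction n with
  | zero => exact h 0 le_rfl
  | succ n ih =>
    rw [lnc, lnc, ih fun i hi => h i (by omega), h (n + 1) le_rfl]

theorem inT_comm {R : Type} [NonUnitalRing R] (r : ℕ → R) (n : ℕ) (w y : R) :
    InT (n + 2) ((lnc r n * w - w * lnc r n) * y - y * (lnc r n * w - w * lnc r n)) := by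
  have h := InT.base (n := n + 2) (fun i => if i ≤ n then r i else if i = n + 1 then w else y)
  have h1 : lnc (fun i => if i ≤ n then r i else if i = n + 1 then w else y) n = lnc r n :=
    lnc_congr _ _ n (fun i hi => by simp [hi])
  rw [lnc, lnc, h1] at h
  simpa using h

theorem ident {R : Type} [NonUnitalRing R] (v w a b c : R) :
    ((a * b - b * a) * c - c * (a * b - b * a)) * (v * w - w * v) =
      (((v * (w * (a * b - b * a)) - (w * (a * b - b * a)) * v) * c -
          c * (v * (w * (a * b - b * a)) - (w * (a * b - b * a)) * v)) -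
        ((v * w - w * v) * c - c * (v * w - w * v)) * (a * b - b * a) -
        w * ((v * (a * b - b * a) - (a * b - b * a) * v) * c -
          c * (v * (a * b - b * a) - (a * b - b * a) * v)) -
        (w * c - c * w) * (((v * a - a * v) * b - b * (v * a - a * v)) -
          ((v * b - b * v) * a - a * (v * b - b * v)))) -
      ((v * w - w * v) * ((a * b - b * a) * c - c * (a * b - b * a)) -
        ((a * b - b * a) * c - c * (a * b - b * a)) * (v * w - w * v)) := by
  simp only [mul_sub, sub_mul, mul_assoc]
  abel

theorem inT_base {R : Type} [NonUnitalRing R] (r : ℕ → R) (n : ℕ) (a b c : R) :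
    InT (n + 2) (((a * b - b * a) * c - c * (a * b - b * a)) * lnc r (n + 1)) := by
  have h : lnc r (n + 1) = lnc r n * r (n + 1) - r (n + 1) * lnc r n := rfl
  rw [h, ident]
  refine InT.sub (InT.sub (InT.sub (InT.sub (inT_comm _ _ _ _) ?_) ?_) ?_) (inT_comm _ _ _ _)
  · exact (inT_comm _ _ _ _).right _
  · exact (inT_comm _ _ _ _).left _
  · exact ((inT_comm _ _ _ _).sub (inT_comm _ _ _ _)).left _

theorem inT_mul {R : Type} [NonUnitalRing R] (n : ℕ) {z : R} (hz : InT (n + 1) z) :
    ∀ {t : R}, InT 2 t → InT (n + 2) (t * z) := by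
  induction hz with
  | base r =>
    intro t ht
    induction ht with
    | base s => exact inT_base r n (s 0) (s 1) (s 2)
    | zero => rw [zero_mul]; exact InT.zero
    | add _ _ h1 h2 => rw [add_mul]; exact h1.add h2
    | neg _ h1 => rw [neg_mul]; exact h1.neg
    | left b _ h1 => rw [mul_assoc]; exact h1.left b
    | @right x b _ h1 =>
      have h : x * b * lnc r (n + 1) = (x * lnc r (n + 1)) * b -
          x * (lnc r (n + 1) * b - b * lnc r (n + 1)) := by
        simp only [mul_sub, mul_assoc]
        abel
      rw [h]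
      exact (h1.right b).sub ((inT_comm _ _ _ _).left x)
  | zero => intro t _; rw [mul_zero]; exact InT.zero
  | add _ _ h1 h2 => intro t ht; rw [mul_add]; exact (h1 ht).add (h2 ht)
  | neg _ h1 => intro t ht; rw [mul_neg]; exact (h1 ht).neg
  | left b _ h1 => intro t ht; rw [← mul_assoc]; exact h1 (ht.right b)
  | right b _ h1 => intro t ht; rw [← mul_assoc]; exact (h1 ht).right b

theorem inT_mon {R : Type} [NonUnitalRing R] (n : ℕ) (a : Fin (n + 1) → R) (ha : ∀ i, InT 2 (a i)) :
    InT (n + 2) (mon n a) := by
  induction n with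
  | zero => exact ha 0
  | succ n ih =>
    rw [mon_succ]
    exact inT_mul (n + 1) (ih _ fun i => ha _) (ha 0)

theorem inT_zero {R : Type} [NonUnitalRing R] (n : ℕ) (h : ∀ r : ℕ → R, lnc r n = 0) {z : R}
    (hz : InT n z) : z = 0 := by
  induction hz with
  | base r => exact h r
  | zero => rfl
  | add _ _ h1 h2 => rw [h1, h2, add_zero]
  | neg _ h1 => rw [h1, neg_zero]
  | left b _ h1 => rw [h1, mul_zero]
  | right b _ h1 => rw [h1, zero_mul]

theorem jen : S_JEN := by
  intro R _ c hc
  refine ⟨c + 1, by omega, ?_⟩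
  intro N _ hN a ha
  have hsub := hN
    { carrier := {z | InT 2 z}
      add_mem' := fun h1 h2 => h1.add h2
      zero_mem' := InT.zero
      neg_mem' := fun h => h.neg }
    (fun a ha b => ⟨ha.right b, ha.left b⟩)
    (fun x y z => by
      have h := InT.base (n := 2) (fun i => if i = 0 then x else if i = 1 then y else z)
      exact h)
  have h1 : InT (c + 2) (mon c a) := inT_mon c a fun i => hsub (ha i)
  have h2 : mon c a = 0 := by
    refine inT_zero (c + 2) ?_ h1
    intro r
    have h3 : lnc r (c + 1) = 0 := by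
      rw [lnc, hc, zero_mul, mul_zero, sub_zero]
    change lnc r (c + 1) * _ - _ * lnc r (c + 1) = 0
    rw [h3, zero_mul, mul_zero, sub_zero]
  rw [mon_coe, h2, Unitization.inr_zero]

end Pool.TF48.H41
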