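import Pool.Agent.Helper41.TF.LEV
import Pool.Agent.Helper48.TF.Defs4

/-!
# TF, part LATY (MP_097e5c_al): Latyshev's theorem
-/

set_option autoImplicit false

namespace Pool.TF48.H41

open Pool.TF48

section

variable {X : Type}

/-- the concatenation of nonempty blocks -/
def flat (Bs : List (X × List X)) : List X := (Bs.map (fun B => B.1 :: B.2)).flatten

theorem flat_cons (B : X × List X) (Bs : List (X × List X)) :
    flat (B :: Bs) = B.1 :: (B.2 ++ flat Bs) := rfl

theorem exists_blocks {M L : List X} (h : M.Sublist L) : ∃ (W : List X) (Bs : List (X × List X)),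
    Bs.map Prod.fst = M ∧ L = W ++ flat Bs := by
  induction h with
  | slnil => exact ⟨[], [], rfl, rfl⟩
  | cons a _ ih =>
    obtain ⟨W, Bs, h1, h2⟩ := ih
    exact ⟨a :: W, Bs, h1, by rw [h2]; rfl⟩
  | cons_cons a _ ih =>
    obtain ⟨W, Bs, h1, h2⟩ := ih
    exact ⟨[], (a, W) :: Bs, by simp [h1], by rw [h2]; rfl⟩

theorem flat_perm {Bs Ms : List (X × List X)} (h : Ms.Perm Bs) : (flat Ms).Perm (flat Bs) :=
  (h.map _).flatten

theorem flat_lt [LT X] : ∀ (Bs Ms : List (X × List X)),
    Bs.Pairwise (fun B C => C.1 < B.1) → Ms.Perm Bs → Ms ≠ Bs →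
    List.Lex (· < ·) (flat Ms) (flat Bs) := by
  intro Bs
  induction Bs with
  | nil =>
    intro Ms _ h hne
    exact absurd (List.perm_nil.1 h) hne
  | cons B Bs ih =>
    intro Ms hp h hne
    rcases Ms with _ | ⟨M, Ms⟩
    · exact absurd h.symm.eq_nil (by simp)
    · rw [List.pairwise_cons] at hp
      by_cases hM : M = B
      · subst hM
        have h1 := ih Ms hp.2 h.cons_inv (fun h2 => hne (by rw [h2]))
        rw [flat_cons, flat_cons]
        exact List.Lex.cons (List.Lex.append_left _ h1 _)
      · have h1 : M ∈ B :: Bs := h.subset (List.mem_cons_self ..)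
        have h2 : M ∈ Bs := by
          rcases List.mem_cons.1 h1 with h3 | h3
          · exact absurd h3 hM
          · exact h3
        rw [flat_cons, flat_cons]
        exact List.Lex.rel (hp.1 M h2)

end

theorem bad_sublist {k n : ℕ} (σ : Equiv.Perm (Fin n)) (h : Bad k n σ) :
    ∃ M : List (Fin n), M.Sublist (List.ofFn σ) ∧ M.length = k ∧ M.Pairwise (fun a b => b < a) := by
  obtain ⟨p, hp, ha⟩ := h
  refine ⟨List.ofFn (fun i => σ (p i)), ?_, List.length_ofFn, ?_⟩
  · rw [List.sublist_iff_exists_fin_orderEmbedding_get_eq]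
    refine ⟨OrderEmbedding.ofStrictMono (fun i => Fin.cast (List.length_ofFn).symm
      (p (Fin.cast List.length_ofFn i))) ?_, ?_⟩
    · intro i j hij
      exact hp hij
    · intro i
      simp only [List.get_ofFn]
      rfl
  · rw [List.pairwise_ofFn]
    intro i j hij
    exact ha hij

/-- a rearrangement of a permutation is a permutation -/
theorem exists_perm {n : ℕ} (σ : Equiv.Perm (Fin n)) (L : List (Fin n))
    (h : L.Perm (List.ofFn σ)) : ∃ σ' : Equiv.Perm (Fin n), L = List.ofFn σ' := by
  have hl : L.length = n := by rw [h.length_eq, List.length_ofFn]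
  have hnd : L.Nodup := h.nodup_iff.2 (List.nodup_ofFn.2 σ.injective)
  obtain ⟨g, rfl⟩ : ∃ g : Fin n → Fin n, L = List.ofFn g :=
    ⟨fun i => L.get (Fin.cast hl.symm i), by
      apply List.ext_get
      · simp [hl]
      · intro i h1 h2
        simp⟩
  have hg : Function.Injective g := List.nodup_ofFn.1 hnd
  exact ⟨Equiv.ofBijective g (Finite.injective_iff_bijective.1 hg), rfl⟩

theorem val_flat {U : Type} [Ring U] {X : Type} (x : X → U) (Bs : List (X × List X)) :
    ((flat Bs).map x).prod = (Bs.map (fun B => ((B.1 :: B.2).map x).prod)).prod := by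
  induction Bs with
  | nil => rfl
  | cons B Bs ih =>
    rw [flat_cons, ← List.cons_append, List.map_append, List.prod_append, ih]
    simp only [List.map_cons, List.prod_cons]

theorem val_app {U : Type} [Ring U] {X : Type} (x : X → U) (W L : List X) :
    ((W ++ L).map x).prod = (W.map x).prod * (L.map x).prod := by
  rw [List.map_append, List.prod_append]

theorem val_block {S : Type} [NonUnitalRing S] {X : Type} (x : X → S) (a : X) (L : List X) :
    ∃ y : S, ((a :: L).map (fun i => (x i : Unitization ℤ S))).prod = (y : Unitization ℤ S) := by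
  induction L generalizing a with
  | nil => exact ⟨x a, by simp⟩
  | cons b L ih =>
    obtain ⟨y, hy⟩ := ih b
    refine ⟨x a * y, ?_⟩
    rw [List.map_cons, List.prod_cons, hy, Unitization.inr_mul]

theorem laty : S_LATY := by
  classical
  intro d S _ ⟨a, ha, hf⟩ n
  let r : Equiv.Perm (Fin (n + 1)) → Equiv.Perm (Fin (n + 1)) → Prop := fun σ' σ =>
    List.ofFn σ' < List.ofFn σ
  have : IsTrans _ r := ⟨fun _ _ _ h1 h2 => lt_trans (α := List (Fin (n + 1))) h1 h2⟩
  have : Std.Irrefl r := ⟨fun _ h => lt_irrefl _ h⟩
  have wf : WellFounded r := Finite.wellFounded_of_trans_of_irrefl r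
  intro σ
  induction σ using wf.induction with
  | _ σ ih =>
    by_cases hb : Bad (d + 1) (n + 1) σ
    · obtain ⟨M, hM1, hM2, hM3⟩ := bad_sublist σ hb
      obtain ⟨W, Bs, rfl, hL⟩ := exists_blocks hM1
      rw [List.length_map] at hM2
      obtain ⟨b, rfl⟩ : ∃ b : Fin (d + 1) → Fin (n + 1) × List (Fin (n + 1)), Bs = List.ofFn b := by
        rw [← hM2]
        exact ⟨Bs.get, (List.ofFn_get Bs).symm⟩
      rw [List.pairwise_map] at hM3
      have hperm : ∀ τ : Equiv.Perm (Fin (d + 1)), (List.ofFn (fun i => b (τ i))).Perm
          (List.ofFn b) := fun τ => Equiv.Perm.ofFn_comp_perm τ b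
      have hex : ∀ τ : Equiv.Perm (Fin (d + 1)), ∃ σ' : Equiv.Perm (Fin (n + 1)),
          W ++ flat (List.ofFn (fun i => b (τ i))) = List.ofFn σ' := by
        intro τ
        apply exists_perm σ
        rw [hL]
        exact List.Perm.append_left _ (flat_perm (hperm τ))
      choose s hs using hex
      have hlt : ∀ τ : Equiv.Perm (Fin (d + 1)), τ ≠ 1 → r (s τ) σ := by
        intro τ hτ
        show List.ofFn (s τ) < List.ofFn σ
        rw [← hs, hL]
        refine List.Lex.append_left _ (flat_lt _ _ hM3 (hperm τ) ?_) _
        intro h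
        apply hτ
        have h1 := List.ofFn_injective h
        have hinj : Function.Injective b := by
          rw [List.pairwise_ofFn] at hM3
          intro i j hij
          by_contra hne
          rcases lt_or_gt_of_ne hne with h2 | h2
          · exact absurd (hM3 h2) (by rw [hij]; exact lt_irrefl _)
          · exact absurd (hM3 h2) (by rw [hij]; exact lt_irrefl _)
        ext i
        exact congrArg Fin.val (hinj (congrFun h1 i))
      have hih : ∀ τ : Equiv.Perm (Fin (d + 1)), τ ≠ 1 →
          ∃ c : Equiv.Perm (Fin (n + 1)) → ℤ, (∀ ρ, c ρ ≠ 0 → ¬ Bad (d + 1) (n + 1) ρ) ∧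
            ∀ x : Fin (n + 1) → S, (List.ofFn (fun i => (x (s τ i) : Unitization ℤ S))).prod =
              ∑ ρ, c ρ • (List.ofFn (fun i => (x (ρ i) : Unitization ℤ S))).prod :=
        fun τ hτ => ih (s τ) (hlt τ hτ)
      choose! c hc1 hc2 using hih
      refine ⟨fun ρ => ∑ τ ∈ Finset.univ.erase 1, -(a τ * c τ ρ), ?_, ?_⟩
      · intro ρ hρ
        obtain ⟨τ, hτ, hτ2⟩ := Finset.exists_ne_zero_of_sum_ne_zero hρ
        apply hc1 τ (Finset.ne_of_mem_erase hτ)
        intro h
        apply hτ2
        rw [h, mul_zero, neg_zero]
      · intro x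
        have hv : ∀ ρ : Equiv.Perm (Fin (n + 1)),
            (List.ofFn (fun i => (x (ρ i) : Unitization ℤ S))).prod =
            ((List.ofFn ρ).map (fun i => (x i : Unitization ℤ S))).prod := by
          intro ρ
          rw [List.map_ofFn]
          rfl
        choose y hy using fun j => val_block x (b j).1 (b j).2
        have hv2 : ∀ τ : Equiv.Perm (Fin (d + 1)),
            ((W ++ flat (List.ofFn (fun i => b (τ i)))).map
              (fun i => (x i : Unitization ℤ S))).prod =
            (W.map (fun i => (x i : Unitization ℤ S))).prod *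
              (List.ofFn (fun j => (y (τ j) : Unitization ℤ S))).prod := by
          intro τ
          have e1 := val_app (fun i => (x i : Unitization ℤ S)) W
            (flat (List.ofFn (fun i => b (τ i))))
          have e2 := val_flat (fun i => (x i : Unitization ℤ S)) (List.ofFn (fun i => b (τ i)))
          have e3 : (List.ofFn (fun i => b (τ i))).map
              (fun B => ((B.1 :: B.2).map (fun i => (x i : Unitization ℤ S))).prod) =
              List.ofFn (fun j => (y (τ j) : Unitization ℤ S)) := by
            rw [List.map_ofFn]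
            congr 1
            funext j
            exact hy (τ j)
          exact e1.trans (congrArg _ (e2.trans (congrArg List.prod e3)))
        have h1 : (List.ofFn (fun i => (x (σ i) : Unitization ℤ S))).prod =
            (W.map (fun i => (x i : Unitization ℤ S))).prod *
              (List.ofFn (fun j => (y j : Unitization ℤ S))).prod := by
          rw [hv, hL]
          exact hv2 1
        have h2 : ∀ τ : Equiv.Perm (Fin (d + 1)), (List.ofFn (fun i => (x (s τ i) : Unitization ℤ S))).prod =
            (W.map (fun i => (x i : Unitization ℤ S))).prod *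
              (List.ofFn (fun j => (y (τ j) : Unitization ℤ S))).prod := by
          intro τ
          rw [hv, ← hs, hv2]
        have h3 := hf y
        rw [← Finset.add_sum_erase _ _ (Finset.mem_univ (1 : Equiv.Perm (Fin (d + 1)))), ha,
          one_smul] at h3
        have h4 : (List.ofFn (fun j => (y j : Unitization ℤ S))).prod =
            - ∑ τ ∈ Finset.univ.erase (1 : Equiv.Perm (Fin (d + 1))),
              a τ • (List.ofFn (fun j => (y (τ j) : Unitization ℤ S))).prod :=
          eq_neg_of_add_eq_zero_left h3
        rw [h1, h4, mul_neg, Finset.mul_sum]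
        simp only [Finset.sum_smul]
        rw [Finset.sum_comm, ← Finset.sum_neg_distrib]
        refine Finset.sum_congr rfl fun τ hτ => ?_
        rw [mul_smul_comm, ← h2 τ, hc2 τ (Finset.ne_of_mem_erase hτ) x, Finset.smul_sum,
          ← Finset.sum_neg_distrib]
        refine Finset.sum_congr rfl fun ρ _ => ?_
        rw [smul_smul, neg_smul]
    · refine ⟨fun τ => if τ = σ then 1 else 0, ?_, ?_⟩
      · intro τ hτ
        have : τ = σ := by
          by_contra h
          exact hτ (if_neg h)
        rw [this]
        exact hb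
      · intro x
        simp

end Pool.TF48.H41
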