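import Pool.Agent.Helper41.TF.MAT
import Pool.Agent.Helper48.TF.Defs4

/-!
# TF, part LIN (MP_097e5c_al): torsion-free PI rings satisfy multilinear identities
-/

set_option autoImplicit false

namespace Pool.TF48.H41

open Pool.TF48

/-- extraction of the coefficient of `t` -/
theorem extract (N : ℕ) (hN : 1 ≤ N) : ∃ (e : Fin (N + 1) → ℤ) (D : ℤ), D ≠ 0 ∧
    ∀ k ≤ N, ∑ s : Fin (N + 1), e s * ((s : ℕ) : ℤ) ^ k = if k = 1 then D else 0 := by
  let V : Matrix (Fin (N + 1)) (Fin (N + 1)) ℤ := Matrix.vandermonde (fun s => ((s : ℕ) : ℤ))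
  have hV : V.det ≠ 0 := by
    rw [Matrix.det_vandermonde_ne_zero_iff]
    intro a b h
    have h' : ((a : ℕ) : ℤ) = ((b : ℕ) : ℤ) := h
    ext
    exact_mod_cast h'
  let one : Fin (N + 1) := ⟨1, by omega⟩
  refine ⟨fun s => V.adjugate one s, V.det, hV, fun k hk => ?_⟩
  have h := congrFun (congrFun (Matrix.adjugate_mul V) one) ⟨k, by omega⟩
  rw [Matrix.mul_apply] at h
  have h2 : ∑ s : Fin (N + 1), V.adjugate one s * ((s : ℕ) : ℤ) ^ k =
      (V.det • (1 : Matrix (Fin (N + 1)) (Fin (N + 1)) ℤ)) one ⟨k, by omega⟩ := h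
  rw [h2, Matrix.smul_apply, Matrix.one_apply]
  by_cases hk1 : k = 1
  · subst hk1
    simp [one]
  · rw [if_neg hk1, if_neg]
    · simp
    · intro h3
      exact hk1 (congrArg Fin.val h3).symm

theorem expand {U : Type} [Ring U] {n m : ℕ} (c : Fin n → Fin m → ℤ) (x : Fin n → U) :
    (List.ofFn (fun j => ∑ i, c i j • x i)).prod =
      ∑ g : Fin m → Fin n, (∏ j, c (g j) j) • (List.ofFn (fun j => x (g j))).prod := by
  classical
  have h := MultilinearMap.map_sum (MultilinearMap.mkPiAlgebraFin ℤ m U)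
    (fun (j : Fin m) (i : Fin n) => c i j • x i)
  rw [MultilinearMap.mkPiAlgebraFin_apply] at h
  rw [h]
  refine Finset.sum_congr rfl fun g _ => ?_
  rw [MultilinearMap.map_smul_univ, MultilinearMap.mkPiAlgebraFin_apply]

theorem coefsum {n m N : ℕ} (hm : m ≤ N) (e : Fin (N + 1) → ℤ) (D : ℤ)
    (he : ∀ k ≤ N, ∑ s : Fin (N + 1), e s * ((s : ℕ) : ℤ) ^ k = if k = 1 then D else 0)
    (g : Fin m → Fin n) :
    ∑ t : Fin n → Fin (N + 1), (∏ i, e (t i)) * ∏ j, ((t (g j) : ℕ) : ℤ) =
      if Function.Bijective g then D ^ n else 0 := by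
  classical
  have h1 : ∀ t : Fin n → Fin (N + 1), (∏ i, e (t i)) * ∏ j, ((t (g j) : ℕ) : ℤ) =
      ∏ i, (e (t i) * ((t i : ℕ) : ℤ) ^ (Finset.univ.filter (fun j => g j = i)).card) := by
    intro t
    rw [Finset.prod_mul_distrib]
    congr 1
    rw [← Finset.prod_fiberwise' Finset.univ g (fun i => ((t i : ℕ) : ℤ))]
    refine Finset.prod_congr rfl fun i _ => ?_
    rw [Finset.prod_const]
  rw [Finset.sum_congr rfl fun t _ => h1 t]
  have h2 := Finset.prod_univ_sum (fun _ : Fin n => (Finset.univ : Finset (Fin (N + 1))))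
    (fun i s => e s * ((s : ℕ) : ℤ) ^ (Finset.univ.filter (fun j => g j = i)).card)
  rw [Fintype.piFinset_univ] at h2
  rw [← h2]
  have h3 : ∀ i : Fin n, ∑ s : Fin (N + 1),
      e s * ((s : ℕ) : ℤ) ^ (Finset.univ.filter (fun j => g j = i)).card =
      if (Finset.univ.filter (fun j => g j = i)).card = 1 then D else 0 := by
    intro i
    apply he
    refine (Finset.card_le_univ _).trans ?_
    rw [Fintype.card_fin]
    exact hm
  rw [Finset.prod_congr rfl fun i _ => h3 i]
  by_cases hb : Function.Bijective g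
  · rw [if_pos hb]
    have h4 : ∀ i : Fin n, (Finset.univ.filter (fun j => g j = i)).card = 1 := by
      intro i
      obtain ⟨j, hj⟩ := hb.2 i
      rw [Finset.card_eq_one]
      refine ⟨j, ?_⟩
      ext j'
      simp only [Finset.mem_filter, Finset.mem_univ, true_and, Finset.mem_singleton]
      constructor
      · intro h
        exact hb.1 (h.trans hj.symm)
      · rintro rfl
        exact hj
    rw [Finset.prod_congr rfl fun i _ => if_pos (h4 i)]
    simp
  · rw [if_neg hb]
    have h4 : ∃ i : Fin n, (Finset.univ.filter (fun j => g j = i)).card ≠ 1 := by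
      by_contra hcon
      push Not at hcon
      apply hb
      constructor
      · intro a b hab
        have h5 := Finset.card_le_one.1 (hcon (g b)).le a (by simp [hab]) b (by simp)
        exact h5
      · intro i
        have h5 : 0 < (Finset.univ.filter (fun j => g j = i)).card := by rw [hcon i]; norm_num
        obtain ⟨j, hj⟩ := Finset.card_pos.1 h5
        exact ⟨j, (Finset.mem_filter.1 hj).2⟩
    obtain ⟨i, hi⟩ := h4
    exact Finset.prod_eq_zero (Finset.mem_univ i) (if_neg hi)

open Classical in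
theorem wordsum {U : Type} [Ring U] {n m N : ℕ} (hm : m ≤ N) (e : Fin (N + 1) → ℤ) (D : ℤ)
    (he : ∀ k ≤ N, ∑ s : Fin (N + 1), e s * ((s : ℕ) : ℤ) ^ k = if k = 1 then D else 0)
    (l : Fin n → ℕ) (w : Fin m → ℕ) (x : Fin n → U) :
    ∑ t : Fin n → Fin (N + 1), (∏ i, e (t i)) •
      (List.ofFn (fun j => ∑ i, (if l i = w j then ((t i : ℕ) : ℤ) else 0) • x i)).prod =
    D ^ n • ∑ σ : Equiv.Perm (Fin n), if List.ofFn (fun i => l (σ i)) = List.ofFn w then
      (List.ofFn (fun i => x (σ i))).prod else 0 := by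
  have h1 : ∀ t : Fin n → Fin (N + 1), (∏ i, e (t i)) •
      (List.ofFn (fun j => ∑ i, (if l i = w j then ((t i : ℕ) : ℤ) else 0) • x i)).prod =
      ∑ g : Fin m → Fin n, ((∏ i, e (t i)) * ∏ j, (if l (g j) = w j then ((t (g j) : ℕ) : ℤ)
        else 0)) • (List.ofFn (fun j => x (g j))).prod := by
    intro t
    rw [expand (fun i j => if l i = w j then ((t i : ℕ) : ℤ) else 0) x, Finset.smul_sum]
    refine Finset.sum_congr rfl fun g _ => ?_
    rw [smul_smul]
  rw [Finset.sum_congr rfl fun t _ => h1 t, Finset.sum_comm]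
  have h2 : ∀ g : Fin m → Fin n, ∑ t : Fin n → Fin (N + 1),
      ((∏ i, e (t i)) * ∏ j, (if l (g j) = w j then ((t (g j) : ℕ) : ℤ)
        else 0)) • (List.ofFn (fun j => x (g j))).prod =
      (if (∀ j, l (g j) = w j) ∧ Function.Bijective g then D ^ n else 0) •
        (List.ofFn (fun j => x (g j))).prod := by
    intro g
    rw [← Finset.sum_smul]
    congr 1
    by_cases hw : ∀ j, l (g j) = w j
    · have h3 : ∀ t : Fin n → Fin (N + 1), ∏ j, (if l (g j) = w j then ((t (g j) : ℕ) : ℤ)
        else 0) = ∏ j, ((t (g j) : ℕ) : ℤ) := fun t =>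
          Finset.prod_congr rfl fun j _ => if_pos (hw j)
      rw [Finset.sum_congr rfl fun t _ => by rw [h3 t], coefsum hm e D he g]
      by_cases hb : Function.Bijective g
      · rw [if_pos hb, if_pos ⟨hw, hb⟩]
      · rw [if_neg hb, if_neg (fun h => hb h.2)]
    · rw [if_neg (fun h => hw h.1)]
      push Not at hw
      obtain ⟨j, hj⟩ := hw
      refine Finset.sum_eq_zero fun t _ => ?_
      rw [Finset.prod_eq_zero (Finset.mem_univ j) (if_neg hj), mul_zero]
  rw [Finset.sum_congr rfl fun g _ => h2 g]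
  by_cases hmn : m = n
  · subst hmn
    rw [Finset.smul_sum]
    symm
    refine Finset.sum_of_injOn (fun σ : Equiv.Perm (Fin m) => (σ : Fin m → Fin m))
      (fun a _ b _ h => DFunLike.coe_injective h) (fun _ _ => Finset.mem_coe.2 (Finset.mem_univ _)) ?_ ?_
    · intro g _ hg
      rw [if_neg, zero_smul]
      rintro ⟨_, hb⟩
      exact hg ⟨Equiv.ofBijective g hb, by simp, rfl⟩
    · intro σ _
      by_cases h : List.ofFn (fun i => l (σ i)) = List.ofFn w
      · rw [if_pos h, if_pos ⟨fun j => congrFun (List.ofFn_injective h) j, σ.bijective⟩]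
      · rw [if_neg h, if_neg, zero_smul, smul_zero]
        rintro ⟨h3, _⟩
        exact h (congrArg List.ofFn (funext h3))
  · have h3 : ∀ g : Fin m → Fin n, ¬ Function.Bijective g := by
      intro g hg
      apply hmn
      have := Fintype.card_of_bijective hg
      simpa using this
    have h4 : ∀ σ : Equiv.Perm (Fin n), List.ofFn (fun i => l (σ i)) ≠ List.ofFn w := by
      intro σ h
      apply hmn
      have := congrArg List.length h
      simpa using this.symm
    rw [Finset.sum_eq_zero, Finset.sum_eq_zero, smul_zero]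
    · intro σ _
      rw [if_neg (h4 σ)]
    · intro g _
      rw [if_neg (fun h => h3 g h.2), zero_smul]

theorem torsionFree_unitization {S : Type} [NonUnitalRing S] (hS : TorsionFree S) (D : ℤ)
    (hD : D ≠ 0) (u : Unitization ℤ S) (h : D • u = 0) : u = 0 := by
  have h1 : D.natAbs • u = 0 := by
    rcases Int.natAbs_eq D with h2 | h2
    · rw [h2, natCast_zsmul] at h
      exact h
    · rw [h2, neg_smul, neg_eq_zero, natCast_zsmul] at h
      exact h
  have hD' : D.natAbs ≠ 0 := Int.natAbs_ne_zero.2 hD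
  ext
  · have := congrArg (fun v : Unitization ℤ S => v.fst) h1
    simp only [Unitization.fst_smul] at this
    simpa [hD] using this
  · have := congrArg (fun v : Unitization ℤ S => v.snd) h1
    simp only [Unitization.snd_smul] at this
    exact hS _ _ hD' this

theorem lin : S_LIN := by
  classical
  intro S _ hS ⟨f, hf1, ⟨w₀, hw₀⟩, hf⟩
  -- the letters of `w₀`
  have hne : w₀ ≠ 1 := by
    rintro rfl
    rw [hf1] at hw₀
    exact zero_ne_one hw₀
  obtain ⟨d, l, hl⟩ : ∃ (d : ℕ) (l : Fin (d + 1) → ℕ), w₀ = FreeMonoid.ofList (List.ofFn l) := by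
    rcases hL : w₀.toList with _ | ⟨a, L⟩
    · exact absurd (FreeMonoid.toList.injective (by rw [hL]; rfl)) hne
    · refine ⟨L.length, (a :: L).get, ?_⟩
      rw [List.ofFn_get, ← hL, FreeMonoid.ofList_toList]
  -- the maximal length
  let N : ℕ := f.coeff.support.sup (fun w => w.toList.length) + 1
  have hN : ∀ w ∈ f.coeff.support, w.toList.length ≤ N := fun w hw =>
    (Finset.le_sup (f := fun w : FreeMonoid ℕ => w.toList.length) hw).trans (Nat.le_succ _)
  obtain ⟨e, D, hD, he⟩ := extract N (Nat.le_add_left 1 _)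
  refine ⟨d, fun σ => f.coeff (FreeMonoid.ofList (List.ofFn (fun i => l (σ i)))), ?_, ?_⟩
  · rw [← hw₀, hl]
    rfl
  intro x
  apply torsionFree_unitization hS (D ^ (d + 1)) (pow_ne_zero _ hD)
  -- the values
  let r : (Fin (d + 1) → Fin (N + 1)) → ℕ → S := fun t k =>
    ∑ i, (if l i = k then ((t i : ℕ) : ℤ) else 0) • x i
  have hr : ∀ t k, ((r t k : S) : Unitization ℤ S) =
      ∑ i, (if l i = k then ((t i : ℕ) : ℤ) else 0) • (x i : Unitization ℤ S) := by
    intro t k
    have h := map_sum (Unitization.inrHom ℤ ℤ S) (fun i : Fin (d + 1) =>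
      (if l i = k then ((t i : ℕ) : ℤ) else 0) • x i) Finset.univ
    simp only [map_zsmul] at h
    exact h
  have hsum : ∀ g : ℕ → S, ev g f = ∑ w ∈ f.coeff.support,
      f.coeff w • (w.toList.map (fun k => (g k : Unitization ℤ S))).prod := by
    intro g
    unfold ev
    have h1 : f = ∑ w ∈ f.coeff.support, MonoidAlgebra.single w (f.coeff w) :=
      (MonoidAlgebra.sum_coeff_single f).symm
    conv_lhs => rw [h1]
    rw [map_sum]
    refine Finset.sum_congr rfl fun w _ => ?_
    exact lft_single _ w.toList _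
  have h0 : ∑ t : Fin (d + 1) → Fin (N + 1), (∏ i, e (t i)) • ev (r t) f = 0 :=
    Finset.sum_eq_zero fun t _ => by rw [hf, smul_zero]
  rw [← h0]
  simp only [hsum, Finset.smul_sum]
  rw [Finset.sum_comm]
  have h2 : ∀ w ∈ f.coeff.support, ∑ t : Fin (d + 1) → Fin (N + 1), (∏ i, e (t i)) •
      f.coeff w • (w.toList.map (fun k => ((r t k : S) : Unitization ℤ S))).prod =
      ∑ σ : Equiv.Perm (Fin (d + 1)), if FreeMonoid.ofList (List.ofFn (fun i => l (σ i))) = w then
        D ^ (d + 1) • f.coeff w • (List.ofFn (fun i => (x (σ i) : Unitization ℤ S))).prod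
        else 0 := by
    intro w hw
    have h3 := wordsum (hN w hw) e D he l w.toList.get (fun i => (x i : Unitization ℤ S))
    have h4 : ∀ t : Fin (d + 1) → Fin (N + 1),
        w.toList.map (fun k => ((r t k : S) : Unitization ℤ S)) =
        List.ofFn (fun j => ∑ i, (if l i = w.toList.get j then ((t i : ℕ) : ℤ) else 0) •
          (x i : Unitization ℤ S)) := by
      intro t
      conv_lhs => rw [← List.ofFn_get w.toList]
      rw [List.map_ofFn]
      congr 1
      funext j
      exact hr t _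
    have h5 : ∀ t : Fin (d + 1) → Fin (N + 1), (∏ i, e (t i)) •
      f.coeff w • (w.toList.map (fun k => ((r t k : S) : Unitization ℤ S))).prod =
      f.coeff w • ((∏ i, e (t i)) • (List.ofFn (fun j => ∑ i, (if l i = w.toList.get j then
        ((t i : ℕ) : ℤ) else 0) • (x i : Unitization ℤ S))).prod) := by
      intro t
      rw [h4 t, smul_comm]
    rw [Finset.sum_congr rfl fun t _ => h5 t, ← Finset.smul_sum, h3, Finset.smul_sum,
      Finset.smul_sum]
    refine Finset.sum_congr rfl fun σ _ => ?_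
    rw [List.ofFn_get]
    by_cases h : List.ofFn (fun i => l (σ i)) = w.toList
    · rw [if_pos h, if_pos (by rw [h, FreeMonoid.ofList_toList]), smul_comm]
    · rw [if_neg h, if_neg, smul_zero, smul_zero]
      intro h6
      apply h
      rw [← h6, FreeMonoid.toList_ofList]
  rw [Finset.sum_congr rfl h2, Finset.sum_comm]
  refine Finset.sum_congr rfl fun σ _ => ?_
  rw [Finset.sum_ite_eq]
  by_cases h : FreeMonoid.ofList (List.ofFn (fun i => l (σ i))) ∈ f.coeff.support
  · rw [if_pos h]
  · rw [if_neg h, Finsupp.notMem_support_iff.1 h, zero_smul, smul_zero]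

end Pool.TF48.H41
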