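import Pool.Agent.Helper41.TF.LEV

/-!
# TF, part MAT (MP_097e5c_al): rings embedded in matrices over commutative rings
-/

set_option autoImplicit false

namespace Pool.TF48.H41

open Pool.TF48

/-- the polynomial of a multilinear identity -/
noncomputable def fmi {d : ℕ} (a : Equiv.Perm (Fin (d + 1)) → ℤ) : FA ℕ :=
  ∑ σ, MonoidAlgebra.single
    (FreeMonoid.ofList (List.ofFn (fun i => ((σ i : Fin (d + 1)) : ℕ)))) (a σ)

open Classical in
theorem coeff_fmi {d : ℕ} (a : Equiv.Perm (Fin (d + 1)) → ℤ) (w : FreeMonoid ℕ) :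
    (fmi a).coeff w = ∑ σ, if
      FreeMonoid.ofList (List.ofFn (fun i => ((σ i : Fin (d + 1)) : ℕ))) = w then a σ else 0 := by
  unfold fmi
  rw [MonoidAlgebra.coeff_sum, Finsupp.finsetSum_apply]
  apply Finset.sum_congr rfl
  intro σ _
  rw [MonoidAlgebra.coeff_single, Finsupp.single_apply]

theorem lft_single {X B : Type} [Ring B] (r : X → B) (l : List X) (c : ℤ) :
    lft r (MonoidAlgebra.single (FreeMonoid.ofList l) c) = c • (l.map r).prod := by
  have h1 : lft r (MonoidAlgebra.single (FreeMonoid.ofList l) c) =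
    MonoidAlgebra.lift ℤ B (FreeMonoid X) (FreeMonoid.lift r)
      (MonoidAlgebra.single (FreeMonoid.ofList l) c) := rfl
  rw [h1, MonoidAlgebra.lift_single, FreeMonoid.lift_apply, FreeMonoid.toList_ofList]

/-- a multilinear identity with coefficient `1` gives an identity -/
theorem pi_of_mi {d : ℕ} {R : Type} [NonUnitalRing R] (h : MI d R) : PI R := by
  classical
  obtain ⟨a, ha, hf⟩ := h
  refine ⟨fmi a, ?_, ⟨FreeMonoid.ofList (List.ofFn (fun i : Fin (d + 1) => (i : ℕ))), ?_⟩, ?_⟩
  · rw [coeff_fmi]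
    apply Finset.sum_eq_zero
    intro σ _
    rw [if_neg]
    intro h
    have h1 := congrArg (fun w => w.toList.length) h
    simp at h1
  · rw [coeff_fmi, Fintype.sum_eq_single (1 : Equiv.Perm (Fin (d + 1)))]
    · simp [ha]
    · intro σ hσ
      rw [if_neg]
      intro h
      apply hσ
      have h1 := List.ofFn_injective (FreeMonoid.ofList.injective h)
      ext i
      exact congrFun h1 i
  · intro r
    unfold fmi ev
    rw [map_sum, ← hf (fun i => r i)]
    apply Finset.sum_congr rfl
    intro σ _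
    rw [lft_single, List.map_ofFn]
    rfl

/-- `mon` in a ring with identity -/
theorem mon_prod {R : Type} [Ring R] (n : ℕ) (x : Fin (n + 1) → R) :
    mon n x = (List.ofFn x).prod := by
  induction n with
  | zero => simp [mon_zero]
  | succ n ih => rw [mon_succ, ih, List.ofFn_succ (f := x), List.prod_cons]

/-- the standard identity of matrices -/
theorem standard (K : Type) [CommRing K] [IsDomain K] (n : ℕ)
    (x : Fin (n * n + 1) → Matrix (Fin n) (Fin n) K) :
    ∑ σ : Equiv.Perm (Fin (n * n + 1)), ((Equiv.Perm.sign σ : ℤˣ) : ℤ) •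
      (List.ofFn (fun i => x (σ i))).prod = 0 := by
  classical
  let P := MultilinearMap.alternatization
    (MultilinearMap.mkPiAlgebraFin K (n * n + 1) (Matrix (Fin n) (Fin n) K))
  have h1 : P x = ∑ σ : Equiv.Perm (Fin (n * n + 1)), ((Equiv.Perm.sign σ : ℤˣ) : ℤ) •
      (List.ofFn (fun i => x (σ i))).prod := by
    rw [MultilinearMap.alternatization_apply]
    apply Finset.sum_congr rfl
    intro σ _
    rw [Units.smul_def, MultilinearMap.domDomCongr_apply, MultilinearMap.mkPiAlgebraFin_apply]
  rw [← h1]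
  apply AlternatingMap.map_linearDependent
  intro hli
  have h2 := hli.fintype_card_le_finrank
  rw [Module.finrank_matrix, Module.finrank_self] at h2
  simp at h2

theorem mat : S_MAT := by
  intro R _ C _ n i hi
  classical
  let π : MvPolynomial C ℤ →+* C := MvPolynomial.eval₂Hom (Int.castRingHom C) id
  have hπ : ∀ c, π (MvPolynomial.X c) = c := fun c => MvPolynomial.eval₂Hom_X' _ _ c
  let Φ : Matrix (Fin n) (Fin n) (MvPolynomial C ℤ) →+* Matrix (Fin n) (Fin n) C := π.mapMatrix
  let S : NonUnitalSubring (Matrix (Fin n) (Fin n) (MvPolynomial C ℤ)) :=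
    { carrier := {s | ∃ r, i r = Φ s}
      add_mem' := by
        rintro s t ⟨r, hr⟩ ⟨q, hq⟩
        exact ⟨r + q, by rw [map_add, map_add, hr, hq]⟩
      zero_mem' := ⟨0, by rw [map_zero, map_zero]⟩
      mul_mem' := by
        rintro s t ⟨r, hr⟩ ⟨q, hq⟩
        exact ⟨r * q, by rw [map_mul, map_mul, hr, hq]⟩
      neg_mem' := by
        rintro s ⟨r, hr⟩
        exact ⟨-r, by rw [map_neg, map_neg, hr]⟩ }
  choose g hg using fun s : S => (s.2 : ∃ r, i r = Φ s)
  refine ⟨S, inferInstance, ?_, ?_, ?_⟩
  · apply pi_of_mi (d := n * n)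
    rw [mi_iff]
    refine ⟨fun σ => ((Equiv.Perm.sign σ : ℤˣ) : ℤ), by simp, fun x => ?_⟩
    have h1 := standard (MvPolynomial C ℤ) n (fun i => (x i : Matrix (Fin n) (Fin n) _))
    apply Subtype.val_injective
    have h2 := map_sum (NonUnitalSubringClass.subtype S) (fun σ : Equiv.Perm (Fin (n * n + 1)) =>
      ((Equiv.Perm.sign σ : ℤˣ) : ℤ) • mon (n * n) (fun i => x (σ i))) Finset.univ
    refine h2.trans (Eq.trans ?_ h1)
    apply Finset.sum_congr rfl
    intro σ _
    rw [map_zsmul, mon_map, mon_prod]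
    rfl
  · intro k s hk hs
    apply Subtype.val_injective
    ext1 p q
    have h1 : (k • (s : Matrix (Fin n) (Fin n) (MvPolynomial C ℤ))) p q = 0 := by
      have h2 := congrArg (fun t : S => (t : Matrix (Fin n) (Fin n) (MvPolynomial C ℤ)) p q) hs
      exact h2
    rw [Matrix.smul_apply, nsmul_eq_mul, mul_eq_zero] at h1
    rcases h1 with h1 | h1
    · exact absurd (Nat.cast_eq_zero.1 h1) hk
    · exact h1
  · refine ⟨{ toFun := g
              map_zero' := hi (by rw [hg, map_zero]; exact map_zero Φ)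
              map_add' := fun s t => hi (by rw [hg, map_add, hg, hg]; exact map_add Φ _ _)
              map_mul' := fun s t => hi (by rw [hg, map_mul, hg, hg]; exact map_mul Φ _ _) }, ?_⟩
    intro r
    have hr : i r = Φ (fun p q => MvPolynomial.X (i r p q)) := by
      ext p q
      exact (hπ _).symm
    exact ⟨⟨_, ⟨r, hr⟩⟩, hi ((hg _).trans hr.symm)⟩

end Pool.TF48.H41
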