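import Pool.Agent.Helper48.TF.Defs

/-!
# TF, part PRIM (MP_097e5c_al): Kaplansky's theorem for ideals of primitive rings
-/

set_option autoImplicit false

namespace Pool.TF48.H41

open Pool.TF48

/-- vanishing on a spanning set implies vanishing on the span -/
theorem multilinear_span {F E G : Type} [CommRing F] [AddCommGroup E] [Module F E]
    [AddCommGroup G] [Module F G] {n : ℕ} (P : MultilinearMap F (fun _ : Fin n => E) G) (s : Set E)
    (h : ∀ x : Fin n → E, (∀ i, x i ∈ s) → P x = 0) (x : Fin n → E)
    (hx : ∀ i, x i ∈ Submodule.span F s) : P x = 0 := by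
  classical
  have key : ∀ (T : Finset (Fin n)) (x : Fin n → E), (∀ i ∈ T, x i ∈ Submodule.span F s) →
      (∀ i, i ∉ T → x i ∈ s) → P x = 0 := by
    intro T
    induction T using Finset.induction_on with
    | empty => intro x _ hx; exact h x fun i => hx i (by simp)
    | insert i T hi ih =>
      intro x hx1 hx2
      have h1 : ∀ z ∈ Submodule.span F s, P (Function.update x i z) = 0 := by
        intro z hz
        induction hz using Submodule.span_induction with
        | mem z hz =>
          apply ih
          · intro j hj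
            rw [Function.update_of_ne (by rintro rfl; exact hi hj)]
            exact hx1 j (Finset.mem_insert_of_mem hj)
          · intro j hj
            by_cases hji : j = i
            · subst hji; simpa using hz
            · rw [Function.update_of_ne hji]; exact hx2 j (by simp [hji, hj])
        | zero => exact P.map_coord_zero i (by simp)
        | add a b _ _ ha hb => rw [P.map_update_add, ha, hb, add_zero]
        | smul c a _ ha => rw [P.map_update_smul, ha, smul_zero]
      have := h1 (x i) (hx1 i (Finset.mem_insert_self i T))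
      simpa using this
  exact key Finset.univ x (fun i _ => hx i) (fun i hi => absurd (Finset.mem_univ i) hi)

/-- the product of shift operators -/
theorem shift_prod {V E : Type} [AddCommGroup V] [Ring E] [Module E V] (N : ℕ) (v : ℕ → V)
    (x : ℕ → E) (h1 : ∀ n < N, x n • v (n + 1) = v n)
    (h0 : ∀ n < N, ∀ j ≤ N, j ≠ n + 1 → x n • v j = 0) :
    ∀ n ≤ N, ∀ τ : Fin n → ℕ, (∀ i, τ i < N) →
      ((∀ i, τ i = i) → (List.ofFn (fun i => x (τ i))).prod • v n = v 0) ∧
      ((¬ ∀ i, τ i = i) → (List.ofFn (fun i => x (τ i))).prod • v n = 0) := by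
  intro n
  induction n with
  | zero =>
    intro _ τ _
    refine ⟨fun _ => by simp, fun h => absurd (fun i => i.elim0) h⟩
  | succ n ih =>
    intro hn τ hτ
    have hih := ih (by omega) (fun i => τ i.castSucc) (fun i => hτ _)
    have hprod : (List.ofFn (fun i => x (τ i))).prod • v (n + 1) =
        (List.ofFn (fun i : Fin n => x (τ i.castSucc))).prod • (x (τ (Fin.last n)) • v (n + 1)) := by
      rw [List.ofFn_succ', List.concat_eq_append, List.prod_append, List.prod_singleton, mul_smul]
    rw [hprod]
    by_cases hl : τ (Fin.last n) = n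
    · rw [hl, h1 n (by omega)]
      constructor
      · intro h
        exact hih.1 fun i => by simpa using h i.castSucc
      · intro h
        apply hih.2
        intro h'
        apply h
        intro i
        refine Fin.lastCases ?_ (fun j => ?_) i
        · simpa using hl
        · simpa using h' j
    · have : x (τ (Fin.last n)) • v (n + 1) = 0 :=
        h0 _ (hτ _) _ hn (by omega)
      rw [this, smul_zero]
      refine ⟨fun h => ?_, fun _ => rfl⟩
      exact absurd (by simpa using h (Fin.last n)) hl

theorem core (B : Type) [Ring B] (V : Type) [AddCommGroup V] [Module B V] [IsSimpleModule B V]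
    (F : Type) [Field F] (ρ : F →+* Module.End B V)
    (hρ : ∀ φ : Module.End B V, (∀ c, φ * ρ c = ρ c * φ) → ∃ c, φ = ρ c)
    (I : AddSubgroup B) (hI : ∀ x ∈ I, ∀ b : B, x * b ∈ I ∧ b * x ∈ I)
    (hIV : ∃ x ∈ I, ∃ v : V, x • v ≠ 0)
    (d : ℕ) (a : Equiv.Perm (Fin (d + 1)) → ℤ) (ha : a 1 = 1)
    (hf : ∀ x : Fin (d + 1) → B, (∀ i, x i ∈ I) →
      ∑ σ, a σ • (List.ofFn (fun i => x (σ i))).prod = 0) :
    ∃ (g : B →ₙ+* Matrix (Fin (d + 1)) (Fin (d + 1)) F), ∀ b : B, g b = 0 → ∀ v : V, b • v = 0 := by
  classical
  let _ : Module F V := Module.compHom V ρ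
  have hsm : ∀ (c : F) (v : V), c • v = ρ c v := fun _ _ => rfl
  have : SMulCommClass B F V := ⟨fun b c v => by rw [hsm, hsm]; exact ((ρ c).map_smul b v).symm⟩
  have : SMulCommClass F B V := SMulCommClass.symm _ _ _
  have : Nontrivial V := IsSimpleModule.nontrivial B V
  let L : B →+* Module.End F V := Module.toModuleEnd F (S := B) V
  have hL : ∀ (b : B) (v : V), L b v = b • v := fun _ _ => rfl
  let B' : Subalgebra F (Module.End F V) := Algebra.adjoin F (Set.range L)
  have hLB : ∀ b, L b ∈ B' := fun b => Algebra.subset_adjoin ⟨b, rfl⟩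
  let I' : Submodule F (Module.End F V) := Submodule.span F (L '' I)
  -- ideal properties
  have hleft : ∀ b : B, ∀ x ∈ I', L b * x ∈ I' := by
    intro b x hx
    induction hx using Submodule.span_induction with
    | mem x hx =>
      obtain ⟨y, hy, rfl⟩ := hx
      rw [← map_mul]
      exact Submodule.subset_span ⟨_, (hI y hy b).2, rfl⟩
    | zero => rw [mul_zero]; exact I'.zero_mem
    | add x y _ _ hx hy => rw [mul_add]; exact I'.add_mem hx hy
    | smul c x _ hx => rw [mul_smul_comm]; exact I'.smul_mem c hx
  have hright : ∀ b' ∈ B', ∀ x ∈ I', x * b' ∈ I' := by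
    intro b' hb'
    induction hb' using Algebra.adjoin_induction with
    | mem b' hb' =>
      obtain ⟨b, rfl⟩ := hb'
      intro x hx
      induction hx using Submodule.span_induction with
      | mem x hx =>
        obtain ⟨y, hy, rfl⟩ := hx
        rw [← map_mul]
        exact Submodule.subset_span ⟨_, (hI y hy b).1, rfl⟩
      | zero => rw [zero_mul]; exact I'.zero_mem
      | add x y _ _ hx hy => rw [add_mul]; exact I'.add_mem hx hy
      | smul c x _ hx => rw [smul_mul_assoc]; exact I'.smul_mem c hx
    | algebraMap c =>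
      intro x hx
      rw [← Algebra.commutes, ← Algebra.smul_def]
      exact I'.smul_mem c hx
    | add p q _ _ hp hq =>
      intro x hx
      rw [mul_add]
      exact I'.add_mem (hp x hx) (hq x hx)
    | mul p q _ _ hp hq =>
      intro x hx
      rw [← mul_assoc]
      exact hq _ (hp x hx)
  -- the module is simple over B'
  have : IsSimpleModule B' V := by
    rw [isSimpleModule_iff_toSpanSingleton_surjective]
    refine ⟨inferInstance, fun x hx y => ?_⟩
    obtain ⟨b, hb⟩ := IsSimpleModule.toSpanSingleton_surjective B hx y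
    exact ⟨⟨L b, hLB b⟩, hb⟩
  -- density
  have hdens : ∀ (f : Module.End F V) (s : Finset V), ∃ r ∈ B', ∀ m ∈ s, f m = r m := by
    intro f s
    have hcomm : ∀ (φ : Module.End B' V), ∃ c : F, ∀ v, φ v = c • v := by
      intro φ
      let φB : Module.End B V :=
        { toFun := φ
          map_add' := φ.map_add
          map_smul' := fun b v => φ.map_smul (⟨L b, hLB b⟩ : B') v }
      have hφc : ∀ c, φB * ρ c = ρ c * φB := by
        intro c
        ext v
        change φ (c • v) = c • φ v
        exact φ.map_smul (algebraMap F B' c) v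
      obtain ⟨c, hc⟩ := hρ φB hφc
      refine ⟨c, fun v => ?_⟩
      have := congrArg (fun ψ : Module.End B V => ψ v) hc
      exact this
    let f' : Module.End (Module.End B' V) V :=
      { toFun := f
        map_add' := f.map_add
        map_smul' := fun φ v => by
          obtain ⟨c, hc⟩ := hcomm φ
          change f (φ v) = φ (f v)
          rw [hc, hc, f.map_smul] }
    obtain ⟨r, hr⟩ := jacobson_density (R := B') f' s
    exact ⟨r, r.2, fun m hm => hr m hm⟩
  -- elements of I' moving one vector
  have hmove : ∀ (n : ℕ) (v : Fin n → V), LinearIndependent F v → ∀ (k : Fin n) (w : V),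
      ∃ x ∈ I', x (v k) = w ∧ ∀ j, j ≠ k → x (v j) = 0 := by
    intro n v hv k w
    -- a linear map
    have hlin : ∀ u : V, ∃ r ∈ B', r (v k) = u ∧ ∀ j, j ≠ k → r (v j) = 0 := by
      intro u
      obtain ⟨f, hf⟩ := LinearMap.exists_extend
        ((Module.Basis.span hv).constr F (fun j => if j = k then u else 0))
      have hfv : ∀ j, f (v j) = if j = k then u else 0 := by
        intro j
        have h1 := congrArg (fun g => g ((Module.Basis.span hv) j)) hf
        simp only [LinearMap.comp_apply, Submodule.subtype_apply, Module.Basis.constr_basis] at h1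
        rwa [Module.Basis.span_apply] at h1
      obtain ⟨r, hr, hrs⟩ := hdens f (Finset.univ.image v)
      refine ⟨r, hr, ?_, ?_⟩
      · rw [← hrs (v k) (by simp), hfv, if_pos rfl]
      · intro j hj
        rw [← hrs (v j) (by simp), hfv, if_neg hj]
    let W : Submodule B V :=
      { carrier := {w | ∃ x ∈ I', x (v k) = w ∧ ∀ j, j ≠ k → x (v j) = 0}
        add_mem' := by
          rintro w1 w2 ⟨x, hx, h1, h2⟩ ⟨y, hy, h3, h4⟩
          exact ⟨x + y, I'.add_mem hx hy, by simp [h1, h3], fun j hj => by simp [h2 j hj, h4 j hj]⟩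
        zero_mem' := ⟨0, I'.zero_mem, by simp, by simp⟩
        smul_mem' := by
          rintro b w ⟨x, hx, h1, h2⟩
          exact ⟨L b * x, hleft b x hx, by simp [hL, h1], fun j hj => by simp [h2 j hj]⟩ }
    have hW : W = ⊤ := by
      refine (eq_bot_or_eq_top W).resolve_left fun h => ?_
      obtain ⟨y, hy, u, hu⟩ := hIV
      obtain ⟨r, hr, h1, h2⟩ := hlin u
      have : y • u ∈ W := ⟨L y * r, hright r hr _ (Submodule.subset_span ⟨y, hy, rfl⟩),
        by simp [hL, h1], fun j hj => by simp [h2 j hj]⟩
      rw [h] at this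
      exact hu (by simpa using this)
    have : w ∈ W := by rw [hW]; trivial
    exact this
  -- the identity on I'
  let P : MultilinearMap F (fun _ : Fin (d + 1) => Module.End F V) (Module.End F V) :=
    ∑ σ : Equiv.Perm (Fin (d + 1)), a σ •
      (MultilinearMap.mkPiAlgebraFin F (d + 1) (Module.End F V)).domDomCongr σ
  have hP : ∀ x, P x = ∑ σ, a σ • (List.ofFn (fun i => x (σ i))).prod := by
    intro x
    simp [P]
  have hP0 : ∀ x : Fin (d + 1) → Module.End F V, (∀ i, x i ∈ I') → P x = 0 := by
    intro x hx
    refine multilinear_span P (L '' I) ?_ x hx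
    intro x hx
    choose y hy hyx using hx
    rw [hP]
    have h1 := congrArg L (hf y hy)
    rw [map_sum, map_zero] at h1
    rw [← h1]
    apply Finset.sum_congr rfl
    intro σ _
    rw [map_zsmul, map_list_prod, List.map_ofFn]
    congr 3
    funext i
    simp [hyx]
  -- dimension
  have hrank : Module.rank F V ≤ (d + 1 : ℕ) := by
    by_contra hlt
    push Not at hlt
    have h2 : ((d + 2 : ℕ) : Cardinal) ≤ Module.rank F V := by
      have := Order.succ_le_of_lt hlt
      rwa [Cardinal.succ_natCast, ← Nat.cast_succ] at this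
    obtain ⟨s, hs, hli⟩ := le_rank_iff_exists_linearIndependent_finset.1 h2
    let e : Fin (d + 2) ≃ s := (finCongr hs.symm).trans s.equivFin.symm
    let v' : Fin (d + 2) → V := fun i => (e i : V)
    have hv' : LinearIndependent F v' := hli.comp e e.injective
    let v : ℕ → V := fun n => if h : n < d + 2 then v' ⟨n, h⟩ else 0
    have hvv : ∀ (n : ℕ) (h : n < d + 2), v n = v' ⟨n, h⟩ := fun n h => by simp [v, h]
    have hx : ∀ n : ℕ, ∃ x ∈ I', n < d + 1 → (x (v (n + 1)) = v n ∧
        ∀ j ≤ d + 1, j ≠ n + 1 → x (v j) = 0) := by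
      intro n
      by_cases hn : n < d + 1
      · obtain ⟨x, hx, h1, h2⟩ := hmove (d + 2) v' hv' ⟨n + 1, by omega⟩ (v n)
        refine ⟨x, hx, fun _ => ⟨by rw [hvv (n + 1) (by omega)]; exact h1, fun j hj hjn => ?_⟩⟩
        rw [hvv j (by omega)]
        exact h2 _ (by simpa [Fin.ext_iff] using hjn)
      · exact ⟨0, I'.zero_mem, fun h => absurd h hn⟩
    choose x hxI hx using hx
    have hsp := shift_prod (V := V) (E := Module.End F V) (d + 1) v x
      (fun n hn => (hx n hn).1) (fun n hn => (hx n hn).2) (d + 1) le_rfl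
    have hz := hP0 (fun i => x i) (fun i => hxI i)
    rw [hP] at hz
    have hz2 := congrArg (fun f : Module.End F V => f (v (d + 1))) hz
    simp only [LinearMap.sum_apply, LinearMap.zero_apply] at hz2
    rw [Finset.sum_eq_single (1 : Equiv.Perm (Fin (d + 1)))] at hz2
    · rw [ha, one_smul] at hz2
      have h3 := (hsp (fun i => (i : ℕ)) (fun i => i.2)).1 (fun i => rfl)
      have h4 : v 0 = 0 := by rw [← h3]; exact hz2
      exact hv'.ne_zero ⟨0, by omega⟩ (by rw [← hvv]; exact h4)
    · intro σ _ hσ
      have h3 := (hsp (fun i => ((σ i : Fin (d + 1)) : ℕ)) (fun i => (σ i).2)).2 (fun h => hσ (by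
        ext i; exact h i))
      rw [LinearMap.smul_apply]
      have h4 : (List.ofFn (fun i => x ((σ i : Fin (d + 1)) : ℕ))).prod (v (d + 1)) = 0 := h3
      rw [h4, smul_zero]
    · intro h; exact absurd (Finset.mem_univ _) h
  have : Module.Finite F V := by
    rw [← Module.rank_lt_aleph0_iff]
    exact lt_of_le_of_lt hrank (Cardinal.natCast_lt_aleph0)
  have hfr : Module.finrank F V ≤ d + 1 := by
    rw [← Module.finrank_eq_rank] at hrank
    exact_mod_cast hrank
  let bs := Module.finBasis F V
  let π : (Fin (d + 1) → F) →ₗ[F] V :=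
    bs.equivFun.symm.toLinearMap ∘ₗ LinearMap.funLeft F F (Fin.castLE hfr)
  have hπ : LinearMap.range π = ⊤ := by
    rw [LinearMap.range_eq_top]
    exact bs.equivFun.symm.surjective.comp
      (LinearMap.funLeft_surjective_of_injective F F _ (Fin.castLE_injective hfr))
  obtain ⟨ι, hι⟩ := LinearMap.exists_rightInverse_of_surjective π hπ
  have hι' : ∀ v, π (ι v) = v := fun v => by
    have := congrArg (fun f => f v) hι
    simpa using this
  refine ⟨{ toFun := fun b => LinearMap.toMatrix' (ι ∘ₗ (L b) ∘ₗ π)
            map_zero' := by simp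
            map_add' := fun x y => by
              rw [map_add, LinearMap.add_comp, LinearMap.comp_add, map_add]
            map_mul' := fun x y => by
              rw [← LinearMap.toMatrix'_comp]
              congr 1
              ext1
              ext1
              simp [hι', map_mul] }, ?_⟩
  intro b hb v
  have h1 : LinearMap.toMatrix' (ι ∘ₗ (L b) ∘ₗ π) = 0 := hb
  have h2 : ι ∘ₗ (L b) ∘ₗ π = 0 := by
    apply LinearMap.toMatrix'.injective
    rw [h1, map_zero]
  have h3 := congrArg (fun f => π (f (ι v))) h2
  simpa [hι', hL] using h3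

theorem prim : S_PRIM := by
  intro B _ V _ _ _ I hI hIV d a ha hf
  classical
  -- a maximal commutative subset of D
  obtain ⟨S, -, hS⟩ := zorn_subset_nonempty {S : Set (Module.End B V) | ∀ x ∈ S, ∀ y ∈ S, x * y = y * x}
    (by
      intro c hc hch hne
      refine ⟨⋃₀ c, ?_, fun s hs => Set.subset_sUnion_of_mem hs⟩
      rintro x ⟨s, hs, hxs⟩ y ⟨t, ht, hyt⟩
      rcases hch.total hs ht with h | h
      · exact hc ht x (h hxs) y hyt
      · exact hc hs x hxs y (h hyt)) ∅ (by intro x hx; exact absurd hx (Set.notMem_empty x))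
  have hScomm : ∀ x ∈ S, ∀ y ∈ S, x * y = y * x := hS.prop
  have hcent : ∀ z : Module.End B V, (∀ x ∈ S, x * z = z * x) → z ∈ S := by
    intro z hz
    have h1 : insert z S ∈ {S : Set (Module.End B V) | ∀ x ∈ S, ∀ y ∈ S, x * y = y * x} := by
      rintro x (rfl | hx) y (rfl | hy)
      · rfl
      · exact (hz y hy).symm
      · exact hz x hx
      · exact hScomm x hx y hy
    exact hS.le_of_ge h1 (Set.subset_insert z S) (Set.mem_insert z S)
  let F : Subring (Module.End B V) := Subring.centralizer S
  have hFS : ∀ z, z ∈ F ↔ z ∈ S := by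
    intro z
    rw [Subring.mem_centralizer_iff]
    exact ⟨fun h => hcent z h, fun h x hx => hScomm x hx z h⟩
  have : Nontrivial V := IsSimpleModule.nontrivial B V
  have hF : IsField F := by
    refine ⟨⟨0, 1, fun h => ?_⟩, ?_, ?_⟩
    · have := congrArg Subtype.val h
      exact zero_ne_one this
    · rintro ⟨x, hx⟩ ⟨y, hy⟩
      exact Subtype.ext (hScomm x ((hFS x).1 hx) y ((hFS y).1 hy))
    · rintro ⟨x, hx⟩ hx0
      have hx0' : x ≠ 0 := fun h => hx0 (Subtype.ext h)
      have hb : Function.Bijective x := LinearMap.bijective_of_ne_zero hx0'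
      let e := LinearEquiv.ofBijective x hb
      let y : Module.End B V := e.symm.toLinearMap
      have hxy : x * y = 1 := by
        ext v; exact e.apply_symm_apply v
      have hyx : y * x = 1 := by
        ext v; exact e.symm_apply_apply v
      refine ⟨⟨y, (hFS y).2 (hcent y fun z hz => ?_)⟩, Subtype.ext hxy⟩
      have h1 := hScomm x ((hFS x).1 hx) z hz
      calc z * y = (y * x) * (z * y) := by rw [hyx, one_mul]
        _ = y * (x * z) * y := by simp only [mul_assoc]
        _ = y * (z * x) * y := by rw [h1]
        _ = y * z * (x * y) := by simp only [mul_assoc]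
        _ = y * z := by rw [hxy, mul_one]
  let _ : Field F := hF.toField
  refine ⟨F, inferInstance, ?_⟩
  refine core B V F (Subring.subtype F) ?_ I hI hIV d a ha hf
  intro φ hφ
  refine ⟨⟨φ, (hFS φ).2 (hcent φ fun z hz => ?_)⟩, rfl⟩
  exact (hφ ⟨z, (hFS z).2 hz⟩).symm

end Pool.TF48.H41
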